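import Pool.Agent.W787.PS.StmC

/-!
# PS-H1D: from smooth sequences to H1
-/

open MeasureTheory Set Filter Topology

noncomputable section

namespace Pool.Agent.W605.PS

open Pool.Agent.W787.PS
open Pool.Agent.W787.PS.Geo (fn)

variable {M : Type} [TopologicalSpace M] [CompactSpace M] [MeasurableSpace M] [BorelSpace M]

omit [TopologicalSpace M] [CompactSpace M] [BorelSpace M] in
/-- Weighted Cauchy-Schwarz inequality. -/
theorem cs {μ : Measure M} (h f g : M → ℝ) (b : ℝ) (hb : ∀ x, |h x| ≤ b)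
    (hf : MemLp f 2 μ) (hg : MemLp g 2 μ) :
    |∫ x, h x * f x * g x ∂μ|
      ≤ b * (Real.sqrt (∫ x, f x ^ 2 ∂μ) * Real.sqrt (∫ x, g x ^ 2 ∂μ)) := by
  by_cases hne : Nonempty M
  · obtain ⟨x0⟩ := hne
    have hb0 : 0 ≤ b := (abs_nonneg _).trans (hb x0)
    have hint : Integrable (fun x => |f x| * |g x|) μ := by
      have := hf.norm.integrable_mul hg.norm
      exact this
    have h1 : |∫ x, h x * f x * g x ∂μ| ≤ ∫ x, b * (|f x| * |g x|) ∂μ := by
      rw [← Real.norm_eq_abs]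
      refine norm_integral_le_of_norm_le (hint.const_mul b) (Eventually.of_forall fun x => ?_)
      rw [Real.norm_eq_abs, abs_mul, abs_mul, mul_assoc]
      exact mul_le_mul_of_nonneg_right (hb x) (by positivity)
    refine h1.trans ?_
    rw [integral_const_mul]
    refine mul_le_mul_of_nonneg_left ?_ hb0
    have h2 := integral_mul_norm_le_Lp_mul_Lq (μ := μ) (f := f) (g := g)
      (Real.HolderConjugate.two_two) (by simpa using hf) (by simpa using hg)
    simp only [Real.norm_eq_abs] at h2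
    refine h2.trans (le_of_eq ?_)
    rw [Real.sqrt_eq_rpow, Real.sqrt_eq_rpow]
    congr 2
    · refine integral_congr_ae (Eventually.of_forall fun x => ?_)
      simp
    · refine integral_congr_ae (Eventually.of_forall fun x => ?_)
      simp
  · have he : IsEmpty M := not_nonempty_iff.1 hne
    simp [μ.eq_zero_of_isEmpty]

/-- Elementary: logarithm near one. -/
theorem abs_log_le (a t : ℝ) (h1 : |a - 1| ≤ t) (h2 : t ≤ 1 / 2) : |Real.log a| ≤ 2 * t := by
  have h3 := abs_le.1 h1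
  have ha : 1 / 2 ≤ a := by linarith [h3.1]
  have ha0 : 0 < a := by linarith
  have ht : 0 ≤ t := (abs_nonneg _).trans h1
  have h4 := Real.log_le_sub_one_of_pos ha0
  have h5 := Real.one_sub_inv_le_log_of_pos ha0
  rw [abs_le]
  constructor
  · have h6 : a⁻¹ ≤ 1 + 2 * t := by
      rw [inv_le_iff_one_le_mul₀ ha0]
      nlinarith [h3.1]
    linarith
  · linarith [h3.2]

theorem inv_sub_one_le (a t : ℝ) (h1 : |a - 1| ≤ t) (h2 : t ≤ 1 / 2) :
    |a⁻¹ - 1| ≤ 2 * t := by
  have h3 := abs_le.1 h1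
  have ha : 1 / 2 ≤ a := by linarith [h3.1]
  have ha0 : 0 < a := by linarith
  have ht : 0 ≤ t := (abs_nonneg _).trans h1
  rw [abs_le]
  constructor
  · have h6 : 1 - 2 * t ≤ a⁻¹ := by
      rw [← one_div, le_div_iff₀ ha0]
      nlinarith [h3.2, mul_nonneg (show (0:ℝ) ≤ 1 - 2 * t by linarith)
        (show (0:ℝ) ≤ 1 + t - a by linarith [h3.2])]
    linarith
  · have h6 : a⁻¹ ≤ 1 + 2 * t := by
      rw [inv_le_iff_one_le_mul₀ ha0]
      nlinarith [h3.1]
    linarith

/-- The constant function one, as an element of the smooth functions. -/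
def c1 (G : Geo M) : G.SmH := (⟨fun _ => (1 : ℝ), G.const_mem 1⟩ : G.S)

omit [CompactSpace M] [BorelSpace M] in
theorem fn_c1 (G : Geo M) : fn (c1 G) = fun _ => (1 : ℝ) := rfl

theorem norm_c1 (h0 : S_H1Z) (G : Geo M) : ‖((c1 G : G.SmH) : G.H1)‖ = 1 := by
  have h := (h0 M G).2.2.1 (c1 G)
  have h2 : G.h1sq (fn (c1 G)) = 1 := by
    rw [fn_c1]
    have h3 : G.dir (fun _ => (1 : ℝ)) (fun _ => (1 : ℝ)) = 0 := by
      unfold Geo.dir
      rw [← integral_zero M ℝ (μ := G.vol)]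
      exact integral_congr_ae (Eventually.of_forall fun x =>
        G.gip_const 1 _ (G.const_mem 1) x)
    unfold Geo.h1sq
    rw [h3]
    simp
  rw [h2] at h
  have h4 := norm_nonneg ((c1 G : G.SmH) : G.H1)
  nlinarith [h, h4]

theorem step (h0 : S_H1Z) (G : Geo M) (h : M → ℝ) (lam : ℝ) (hE : EXA G) (hA : APX G)
    (hc : Continuous h) (hD : DER G h lam) (U : G.H1)
    (hU : ∫ x, h x * Real.exp (G.toL2 U x) ∂G.vol = 1) (ε : ℝ) (hε : 0 < ε) :
    ∃ v : G.SmH, ‖(v : G.H1) - U‖ ≤ 2 * ε ∧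
      PSg G h lam (‖fderiv ℝ (G.J h lam) U‖ + ε) (fn v) := by
  obtain ⟨Z1, Z2, Z3, Z4, -⟩ := h0 M G
  -- a bound for h
  obtain ⟨b, hb0, hb⟩ : ∃ b : ℝ, 0 ≤ b ∧ ∀ x, |h x| ≤ b := by
    obtain ⟨b, hb⟩ := (isCompact_univ (X := M)).exists_bound_of_continuousOn hc.continuousOn
    exact ⟨max b 0, le_max_right _ _, fun x => (hb x (mem_univ x)).trans (le_max_left _ _)⟩
  set W : M → ℝ := fun x => G.toL2 U x with hW
  have hWm : AEStronglyMeasurable W G.vol := (Lp.memLp (G.toL2 U)).1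
  have hexpm : AEStronglyMeasurable (fun x => Real.exp (W x)) G.vol :=
    Real.continuous_exp.comp_aestronglyMeasurable hWm
  have hexp : MemLp (fun x => Real.exp (W x)) 2 G.vol := by
    rw [memLp_two_iff_integrable_sq hexpm]
    refine (hE.2.2 U 2).mono' (hexpm.pow 2) (Eventually.of_forall fun x => ?_)
    rw [Real.norm_eq_abs, abs_of_nonneg (by positivity), ← Real.exp_nat_mul]
    apply Real.exp_le_exp.2
    push_cast
    have := le_abs_self (W x)
    linarith
  set N : ℝ := Real.sqrt (∫ x, Real.exp (W x) ^ 2 ∂G.vol) with hN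
  have hN0 : 0 ≤ N := Real.sqrt_nonneg _
  set c : ℝ := 2 * |lam| * b * (1 + b * N) with hcdef
  have hc0 : 0 ≤ c := by positivity
  set K : ℝ := 2 + 2 * b + c with hK
  have hK0 : 0 < K := by positivity
  obtain ⟨η, hη0, hη1, hη2⟩ : ∃ η : ℝ, 0 < η ∧ K * η ≤ ε ∧ K * η ≤ 1 := by
    refine ⟨min ε 1 / K, by positivity, ?_, ?_⟩
    · rw [mul_div_cancel₀ _ hK0.ne']; exact min_le_left _ _
    · rw [mul_div_cancel₀ _ hK0.ne']; exact min_le_right _ _
  have hbη0 : 0 ≤ b * η := by positivity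
  have hcη0 : 0 ≤ c * η := by positivity
  have hbη : b * η ≤ 1 / 2 := by
    have : K * η = 2 * η + 2 * (b * η) + c * η := by rw [hK]; ring
    linarith
  have hbη2 : 2 * (b * η) ≤ ε := by
    have : K * η = 2 * η + 2 * (b * η) + c * η := by rw [hK]; ring
    linarith
  have hηε : η ≤ ε := by
    have : K * η = 2 * η + 2 * (b * η) + c * η := by rw [hK]; ring
    linarith
  have hcηε : 2 * η + c * η ≤ ε := by
    have : K * η = 2 * η + 2 * (b * η) + c * η := by rw [hK]; ring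
    linarith
  obtain ⟨u, hu1, hu2⟩ := hA U η hη0
  have huc : Continuous (fn u) := G.cont _ u.2
  have hexu : MemLp (fun x => Real.exp (fn u x)) 2 G.vol :=
    (Real.continuous_exp.comp huc).memLp_of_hasCompactSupport
      (HasCompactSupport.of_compactSpace _)
  have hdif : MemLp (fun x => Real.exp (fn u x) - Real.exp (W x)) 2 G.vol := hexu.sub hexp
  have hdn : Real.sqrt (∫ x, (Real.exp (fn u x) - Real.exp (W x)) ^ 2 ∂G.vol) ≤ η := by
    rw [Real.sqrt_le_left hη0.le]; exact hu2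
  -- integrability of h f g
  have hint : ∀ f g : M → ℝ, MemLp f 2 G.vol → MemLp g 2 G.vol →
      Integrable (fun x => h x * f x * g x) G.vol := by
    intro f g hf hg
    have h1 : Integrable (fun x => f x * g x) G.vol := hf.integrable_mul hg
    have h2 : Integrable (fun x => h x * (f x * g x)) G.vol :=
      h1.bdd_mul hc.aestronglyMeasurable (c := b) (Eventually.of_forall fun x => hb x)
    simpa only [mul_assoc] using h2
  have hone : MemLp (fun _ : M => (1 : ℝ)) 2 G.vol := memLp_const 1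
  set a : ℝ := ∫ x, h x * Real.exp (fn u x) ∂G.vol with ha
  have ha1 : |a - 1| ≤ b * η := by
    have h1 : a - 1 = ∫ x, h x * (Real.exp (fn u x) - Real.exp (W x)) * 1 ∂G.vol := by
      have h2 : a - 1 = a - ∫ x, h x * Real.exp (W x) ∂G.vol := by rw [hU]
      rw [h2, ha, ← integral_sub]
      · refine integral_congr_ae (Eventually.of_forall fun x => ?_)
        simp only [hW]; ring
      · simpa using hint _ _ hexu hone
      · simpa using hint _ _ hexp hone
    rw [h1]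
    refine (cs h _ _ b hb hdif hone).trans ?_
    simp only [one_pow, integral_const, probReal_univ, smul_eq_mul, mul_one,
      Real.sqrt_one]
    exact mul_le_mul_of_nonneg_left hdn hb0
  have ha0 : 0 < a := by
    have := (abs_le.1 ha1).1
    linarith
  have hlog : |Real.log a| ≤ ε := (abs_log_le a _ ha1 hbη).trans hbη2
  have hinv : |a⁻¹ - 1| ≤ 2 * (b * η) := inv_sub_one_le a _ ha1 hbη
  have hainv : |a⁻¹| ≤ 2 := by
    have h1 : (1 / 2 : ℝ) ≤ a := by
      have := (abs_le.1 ha1).1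
      linarith
    rw [abs_of_pos (inv_pos.2 ha0), inv_le_comm₀ ha0 (by norm_num)]
    linarith
  have hfv : fn (u - Real.log a • c1 G) = fun x => fn u x - Real.log a := by
    funext x
    show fn u x - Real.log a * 1 = fn u x - Real.log a
    ring
  have hev : ∀ x, Real.exp (fn u x - Real.log a) = a⁻¹ * Real.exp (fn u x) := by
    intro x
    rw [Real.exp_sub, Real.exp_log ha0, div_eq_inv_mul]
  refine ⟨u - Real.log a • c1 G, ?_, ?_, ?_, ?_⟩
  · have h1 : (((u - Real.log a • c1 G : G.SmH)) : G.H1) - U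
        = ((u : G.H1) - U) - Real.log a • ((c1 G : G.SmH) : G.H1) := by
      rw [UniformSpace.Completion.coe_sub, UniformSpace.Completion.coe_smul]
      abel
    rw [h1]
    refine (norm_sub_le _ _).trans ?_
    rw [norm_smul, norm_c1 h0, mul_one, Real.norm_eq_abs]
    linarith
  · exact (u - Real.log a • c1 G).2
  · rw [hfv]
    simp only [hev]
    have h1 : ∀ x, h x * (a⁻¹ * Real.exp (fn u x)) = a⁻¹ * (h x * Real.exp (fn u x)) := by
      intro x; ring
    simp only [h1]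
    rw [integral_const_mul, ← ha, inv_mul_cancel₀ ha0.ne']
  · intro φ hφ
    rw [hfv]
    obtain ⟨D, hD1, hD2⟩ := hD U
    have hDf : fderiv ℝ (G.J h lam) U = D := hD1.fderiv
    rw [hDf]
    -- the element of SmH
    set p : G.SmH := (⟨φ, hφ⟩ : G.S) with hp
    have hfp : fn p = φ := rfl
    have hpn : Real.sqrt (G.h1sq φ) = ‖(p : G.H1)‖ := by
      rw [← hfp, ← Z3 p, Real.sqrt_sq (norm_nonneg _)]
    rw [hpn]
    have hφm : MemLp φ 2 G.vol := G.memLp p
    -- L2 norm of φ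
    have hφn : Real.sqrt (∫ x, φ x ^ 2 ∂G.vol) ≤ ‖(p : G.H1)‖ := by
      rw [← hpn]
      apply Real.sqrt_le_sqrt
      unfold Geo.h1sq
      have : 0 ≤ G.dir φ φ := integral_nonneg fun x => G.gip_nonneg _ hφ x
      linarith
    -- dir
    have hdir : G.dir (fun x => fn u x - Real.log a) φ = G.dir (fn u) φ := by
      unfold Geo.dir
      refine integral_congr_ae (Eventually.of_forall fun x => ?_)
      have h1 : (fun x => fn u x - Real.log a) = fn u + fun _ => (- Real.log a) := by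
        funext y; simp [sub_eq_add_neg]
      show G.gip (fun x => fn u x - Real.log a) φ x = G.gip (fn u) φ x
      rw [h1, G.gip_add (fn u) u.2 _ (G.const_mem _) _ hφ, G.gip_const _ _ hφ, add_zero]
    have hin1 : inner ℝ (u : G.H1) (p : G.H1)
        = (∫ x, fn u x * φ x ∂G.vol) + G.dir (fn u) φ := Z4 u p
    have hin2 : inner ℝ (G.toL2 (u : G.H1)) (G.toL2 (p : G.H1)) = ∫ x, fn u x * φ x ∂G.vol := by
      rw [L2.inner_def, Z1 u, Z1 p]
      refine integral_congr_ae ?_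
      filter_upwards [(G.memLp u).coeFn_toLp, (G.memLp p).coeFn_toLp] with x hx hy
      rw [hx, hy, hfp]
      simp [mul_comm]
    have hDp := hD2 p
    rw [hU, div_one, hfp] at hDp
    -- the exponential terms
    have hI1 : Integrable (fun x => h x * Real.exp (fn u x) * φ x) G.vol := hint _ _ hexu hφm
    have hI2 : Integrable (fun x => h x * Real.exp (W x) * φ x) G.vol := hint _ _ hexp hφm
    set E1 : ℝ := ∫ x, h x * (Real.exp (fn u x) - Real.exp (W x)) * φ x ∂G.vol with hE1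
    set E2 : ℝ := ∫ x, h x * Real.exp (W x) * φ x ∂G.vol with hE2
    have hE1' : ∫ x, h x * Real.exp (fn u x) * φ x ∂G.vol = E1 + E2 := by
      rw [hE1, hE2, ← integral_add (hint _ _ hdif hφm) hI2]
      refine integral_congr_ae (Eventually.of_forall fun x => ?_)
      simp only []
      ring
    have hE3 : ∫ x, h x * Real.exp (fn u x - Real.log a) * φ x ∂G.vol = a⁻¹ * (E1 + E2) := by
      rw [← hE1', ← integral_const_mul]
      refine integral_congr_ae (Eventually.of_forall fun x => ?_)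
      simp only [hev]
      ring
    have hB1 : |E1| ≤ b * (η * ‖(p : G.H1)‖) := by
      refine (cs h _ _ b hb hdif hφm).trans ?_
      exact mul_le_mul_of_nonneg_left
        (mul_le_mul hdn hφn (Real.sqrt_nonneg _) hη0.le) hb0
    have hB2 : |E2| ≤ b * (N * ‖(p : G.H1)‖) := by
      refine (cs h _ _ b hb hexp hφm).trans ?_
      exact mul_le_mul_of_nonneg_left
        (mul_le_mul_of_nonneg_left hφn hN0) hb0
    have key : G.dir (fun x => fn u x - Real.log a) φ + lam * (∫ x, φ x ∂G.vol)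
        - lam * (∫ x, h x * Real.exp (fn u x - Real.log a) * φ x ∂G.vol)
        = D (p : G.H1) + inner ℝ ((u : G.H1) - U) (p : G.H1)
          - inner ℝ (G.toL2 ((u : G.H1) - U)) (G.toL2 (p : G.H1))
          - lam * (a⁻¹ * E1 + (a⁻¹ - 1) * E2) := by
      rw [hdir, hE3, hDp, map_sub, inner_sub_left, inner_sub_left, hin1, hin2]
      ring
    rw [key]
    have b1 : |D (p : G.H1)| ≤ ‖D‖ * ‖(p : G.H1)‖ := D.le_opNorm _
    have b2 : |inner ℝ ((u : G.H1) - U) (p : G.H1)| ≤ η * ‖(p : G.H1)‖ :=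
      (abs_real_inner_le_norm _ _).trans (mul_le_mul_of_nonneg_right hu1 (norm_nonneg _))
    have b3 : |inner ℝ (G.toL2 ((u : G.H1) - U)) (G.toL2 (p : G.H1))| ≤ η * ‖(p : G.H1)‖ :=
      (abs_real_inner_le_norm _ _).trans
        (mul_le_mul ((Z2 _).trans hu1) (Z2 _) (norm_nonneg _) hη0.le)
    have b4 : |lam * (a⁻¹ * E1 + (a⁻¹ - 1) * E2)| ≤ c * η * ‖(p : G.H1)‖ := by
      rw [abs_mul]
      have c1 : |a⁻¹ * E1 + (a⁻¹ - 1) * E2|
          ≤ 2 * (b * (η * ‖(p : G.H1)‖)) + 2 * (b * η) * (b * (N * ‖(p : G.H1)‖)) := by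
        refine (abs_add_le _ _).trans (add_le_add ?_ ?_)
        · rw [abs_mul]
          exact mul_le_mul hainv hB1 (abs_nonneg _) (by norm_num)
        · rw [abs_mul]
          exact mul_le_mul hinv hB2 (abs_nonneg _) (by positivity)
      refine (mul_le_mul_of_nonneg_left c1 (abs_nonneg lam)).trans (le_of_eq ?_)
      rw [hcdef]; ring
    have b5 : |D (p : G.H1) + inner ℝ ((u : G.H1) - U) (p : G.H1)
          - inner ℝ (G.toL2 ((u : G.H1) - U)) (G.toL2 (p : G.H1))
          - lam * (a⁻¹ * E1 + (a⁻¹ - 1) * E2)|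
        ≤ |D (p : G.H1)| + |inner ℝ ((u : G.H1) - U) (p : G.H1)|
          + |inner ℝ (G.toL2 ((u : G.H1) - U)) (G.toL2 (p : G.H1))|
          + |lam * (a⁻¹ * E1 + (a⁻¹ - 1) * E2)| := by
      refine (abs_sub _ _).trans (add_le_add_left ?_ _)
      refine (abs_sub _ _).trans (add_le_add_left ?_ _)
      exact abs_add_le _ _
    refine b5.trans ?_
    have b6 : (2 * η + c * η) * ‖(p : G.H1)‖ ≤ ε * ‖(p : G.H1)‖ :=
      mul_le_mul_of_nonneg_right hcηε (norm_nonneg _)
    nlinarith [b1, b2, b3, b4, b6]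

theorem h1d (h0 : S_H1Z) : S_H1D := by
  intro M _ _ _ _ G h lam hE hA hc hpos hD hPS
  refine ⟨fun U => ?_, ?_⟩
  · obtain ⟨D, hD1, -⟩ := hD U
    exact hD1.differentiableAt
  intro U hU _ hder
  have hst : ∀ n : ℕ, ∃ v : G.SmH, ‖(v : G.H1) - U n‖ ≤ 2 * (1 / ((n : ℝ) + 1)) ∧
      PSg G h lam (‖fderiv ℝ (G.J h lam) (U n)‖ + 1 / ((n : ℝ) + 1)) (fn v) := fun n =>
    step h0 G h lam hE hA hc hD (U n) (hU n) _ (by positivity)
  choose v hv1 hv2 using hst
  have ht1 : Tendsto (fun n : ℕ => 1 / ((n : ℝ) + 1)) atTop (𝓝 0) :=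
    tendsto_one_div_add_atTop_nhds_zero_nat
  have ht2 : Tendsto (fun n : ℕ => ‖fderiv ℝ (G.J h lam) (U n)‖ + 1 / ((n : ℝ) + 1))
      atTop (𝓝 0) := by
    have h1 : Tendsto (fun n : ℕ => ‖fderiv ℝ (G.J h lam) (U n)‖) atTop
        (𝓝 ‖(0 : G.H1 →L[ℝ] ℝ)‖) :=
      ((continuous_norm (E := G.H1 →L[ℝ] ℝ)).tendsto 0).comp hder
    have h10 : ‖(0 : G.H1 →L[ℝ] ℝ)‖ = 0 := ContinuousLinearMap.opNorm_zero
    rw [h10] at h1
    have := h1.add ht1
    simpa using this
  set 𝒰 : Ultrafilter ℕ := hyperfilter ℕ with h𝒰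
  have hle : (𝒰 : Filter ℕ) ≤ atTop := by
    rw [h𝒰]
    exact Nat.hyperfilter_le_atTop
  have hPS2 := hPS 𝒰 (fun n => fn (v n)) (by
    intro ε hε
    have h1 : ∀ᶠ n in (atTop : Filter ℕ),
        ‖fderiv ℝ (G.J h lam) (U n)‖ + 1 / ((n : ℝ) + 1) < ε := ht2.eventually_lt_const hε
    filter_upwards [hle h1] with n hn
    obtain ⟨p1, p2, p3⟩ := hv2 n
    exact ⟨p1, p2, fun φ hφ => (p3 φ hφ).trans
      (mul_le_mul_of_nonneg_right hn.le (Real.sqrt_nonneg _))⟩)
  -- Cauchy along the ultrafilter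
  have hcau : Cauchy (map (fun n => ((v n : G.SmH) : G.H1)) (𝒰 : Filter ℕ)) := by
    rw [Metric.cauchy_iff]
    refine ⟨inferInstance, fun ε hε => ?_⟩
    obtain ⟨T, hT, hT2⟩ := hPS2 ((ε / 2) ^ 2) (by positivity)
    refine ⟨(fun n => ((v n : G.SmH) : G.H1)) '' T, image_mem_map hT, ?_⟩
    rintro _ ⟨n, hn, rfl⟩ _ ⟨m, hm, rfl⟩
    have h1 := hT2 n hn m hm
    have h2 : ‖(((v n - v m : G.SmH)) : G.H1)‖ ^ 2 ≤ (ε / 2) ^ 2 := by
      rw [(h0 M G).2.2.1]
      exact h1
    have h3 : ‖(((v n - v m : G.SmH)) : G.H1)‖ ≤ ε / 2 :=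
      (abs_le_of_sq_le_sq' h2 (by positivity)).2
    simp only []
    rw [dist_eq_norm, ← UniformSpace.Completion.coe_sub]
    linarith
  obtain ⟨V, hV⟩ := cauchy_map_iff_exists_tendsto.1 hcau
  have hV2 : Tendsto U (𝒰 : Filter ℕ) (𝓝 V) := by
    have h1 : Tendsto (fun n => ((v n : G.SmH) : G.H1) - U n) (𝒰 : Filter ℕ) (𝓝 0) := by
      have h2 : Tendsto (fun n : ℕ => 2 * (1 / ((n : ℝ) + 1))) (𝒰 : Filter ℕ) (𝓝 0) := by
        have := (ht1.const_mul 2).mono_left hle
        simpa using this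
      exact squeeze_zero_norm hv1 h2
    have h3 := hV.sub h1
    simpa using h3
  have hcl : MapClusterPt V atTop U := mapClusterPt_iff_ultrafilter.2 ⟨𝒰, hle, hV2⟩
  obtain ⟨ψ, hψ1, hψ2⟩ := hcl.tendsto_subseq
  exact ⟨V, ψ, hψ1, hψ2⟩

end Pool.Agent.W605.PS
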